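import Mathlib

namespace Pool.Agent.Results.MP_bdee7b_an.Factor

open Filter Topology Finset

/-- the average shadowing property -/
def ASP {X : Type*} [MetricSpace X] (f : X → X) : Prop :=
  ∀ ε > 0, ∃ δ > 0, ∀ x : ℕ → X,
    (∃ N : ℕ, ∀ n ≥ N, ∀ k, (∑ i ∈ range n, dist (f (x (i + k))) (x (i + k + 1))) / n < δ) →
    ∃ z, limsup (fun n : ℕ => (∑ i ∈ range n, dist (f^[i] z) (x i)) / n) atTop < ε

lemma bdd (X : Type*) [MetricSpace X] [CompactSpace X] : ∃ D > 0, ∀ a b : X, dist a b ≤ D :=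
  ⟨Metric.diam (Set.univ : Set X) + 1, by have := Metric.diam_nonneg (s := (Set.univ : Set X)); positivity,
    fun a b => (Metric.dist_le_diam_of_mem isCompact_univ.isBounded trivial trivial).trans
      (by linarith)⟩

lemma lip {X Y : Type*} [MetricSpace X] [CompactSpace X] [MetricSpace Y] [CompactSpace Y]
    {g : X → Y} (hg : Continuous g) (γ : ℝ) (hγ : 0 < γ) :
    ∃ L > 0, ∀ a b, dist (g a) (g b) ≤ γ + L * dist a b := by
  obtain ⟨D, hD, h⟩ := bdd Y
  obtain ⟨η, hη, h2⟩ := Metric.uniformContinuous_iff.1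
    (CompactSpace.uniformContinuous_of_continuous hg) γ hγ
  refine ⟨D / η, by positivity, fun a b => ?_⟩
  rcases lt_or_ge (dist a b) η with h3 | h3
  · exact (h2 h3).le.trans (le_add_of_nonneg_right (by positivity))
  · have : D / η * η ≤ D / η * dist a b := by gcongr
    rw [div_mul_cancel₀ _ hη.ne'] at this
    linarith [h (g a) (g b)]

lemma blk {Y : Type*} [MetricSpace Y] [CompactSpace Y] {g : Y → Y} (hg : Continuous g) (N : ℕ) :
    ∀ γ > 0, ∃ C > 0, ∀ (y : ℕ → Y) m, ∀ j ≤ N, dist (g^[j] (y m)) (y (m + j)) ≤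
      γ + C * ∑ t ∈ Ico m (m + j), dist (g (y t)) (y (t + 1)) := by
  induction N with
  | zero => exact fun γ hγ => ⟨1, one_pos, fun y m j hj => by simp [Nat.le_zero.1 hj, hγ.le]⟩
  | succ N ih =>
    intro γ hγ
    obtain ⟨L, hL, h1⟩ := lip hg (γ / 2) (by positivity)
    obtain ⟨C, hC, h2⟩ := ih (γ / 2 / L) (by positivity)
    refine ⟨L * C + 1, by positivity, fun y m j hj => ?_⟩
    rcases j with _ | j
    · simp [hγ.le]
    rw [Function.iterate_succ_apply', ← add_assoc, sum_Ico_succ_top (Nat.le_add_right _ _)]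
    have h3 := mul_le_mul_of_nonneg_left (h2 y m j (by omega)) hL.le
    have h4 := h1 (g^[j] (y m)) (y (m + j))
    have h5 := dist_triangle (g (g^[j] (y m))) (g (y (m + j))) (y (m + j + 1))
    have h6 : 0 ≤ ∑ t ∈ Ico m (m + j), dist (g (y t)) (y (t + 1)) := sum_nonneg fun _ _ => dist_nonneg
    have h7 : 0 ≤ L * C * dist (g (y (m + j))) (y (m + j + 1)) := by positivity
    have h8 : L * (γ / 2 / L) = γ / 2 := by field_simp
    nlinarith

theorem result {X Y : Type*} [MetricSpace X] [CompactSpace X] [MetricSpace Y] [CompactSpace Y]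
    (f : X → X) (g : Y → Y) (π : X → Y) (_hf : Continuous f) (hg : Continuous g)
    (hπ : Continuous π) (hs : Function.Surjective π) (hc : ∀ x, π (f x) = g (π x))
    (h : ASP f) : ASP g := by
  intro ε hε
  obtain ⟨D, hD, hD'⟩ := bdd X
  obtain ⟨L, hL, h1⟩ := lip hπ (ε / 5) (by positivity)
  obtain ⟨δ', hδ', h2⟩ := h (ε / 5 / L) (by positivity)
  obtain ⟨N, hN⟩ := exists_nat_gt (2 * D / δ')
  have hN0 : (0 : ℝ) < N := lt_trans (by positivity) hN
  have hN1 : 0 < N := by exact_mod_cast hN0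
  obtain ⟨C, hC, h3⟩ := blk hg N (ε / 5) (by positivity)
  refine ⟨ε / 5 / (C * N), by positivity, fun y ⟨N0, hy⟩ => ?_⟩
  obtain ⟨σ, hσ⟩ := hs.hasRightInverse
  obtain ⟨z, hz⟩ := h2 (fun i => f^[i % N] (σ (y (N * (i / N))))) ⟨N, fun n hn k => by
    have hn0 : (0 : ℝ) < n := by exact_mod_cast hN1.trans_le hn
    have e1 : ∀ i, dist (f (f^[i % N] (σ (y (N * (i / N))))))
        (f^[(i + 1) % N] (σ (y (N * ((i + 1) / N))))) ≤ if N ∣ i + 1 then D else 0 := fun i => by
      split_ifs with h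
      · exact hD' _ _
      · have : (i + 1) % N = i % N + 1 := by
          have := Nat.mod_lt i hN1
          rw [← Nat.mod_add_mod, Nat.mod_eq_of_lt]
          refine lt_of_le_of_ne this fun h' => h (Nat.dvd_of_mod_eq_zero ?_)
          rw [← Nat.mod_add_mod, h', Nat.mod_self]
        rw [this, Nat.succ_div_of_not_dvd h, Function.iterate_succ_apply', dist_self]
    have e2 : #{i ∈ range n | N ∣ i + k + 1} ≤ n / N + 1 := by
      refine (card_le_card_of_injOn (· / N) (t := range (n / N + 1)) (fun i hi => ?_) ?_).trans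
        (by simp)
      · simpa [Nat.lt_succ_iff] using Nat.div_le_div_right (mem_range.1 (mem_filter.1 hi).1).le
      · intro a ha b hb hab
        have : a % N = b % N := Nat.ModEq.add_right_cancel' (k + 1)
          (((Nat.modEq_zero_iff_dvd).2 (mem_filter.1 ha).2).trans
            ((Nat.modEq_zero_iff_dvd).2 (mem_filter.1 hb).2).symm)
        rw [← Nat.div_add_mod a N, ← Nat.div_add_mod b N, this]
        exact congrArg (N * · + b % N) hab
    have e3 : (#{i ∈ range n | N ∣ i + k + 1} : ℝ) * N ≤ 2 * n := by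
      have := Nat.div_mul_le_self n N
      have : #{i ∈ range n | N ∣ i + k + 1} * N ≤ 2 * n := by nlinarith
      exact_mod_cast this
    rw [div_lt_iff₀ hn0]
    refine (sum_le_sum fun i _ => e1 (i + k)).trans_lt ?_
    rw [← sum_filter, sum_const, nsmul_eq_mul]
    rw [div_lt_iff₀ hδ'] at hN
    have := mul_le_mul_of_nonneg_right e3 hD.le
    nlinarith [mul_lt_mul_of_pos_right hN hn0]⟩
  have hz' := eventually_lt_of_limsup_lt hz (isBoundedUnder_of ⟨D, fun n => by
    refine div_le_of_le_mul₀ (by positivity) hD.le ((sum_le_sum fun i _ => hD' _ _).trans ?_)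
    simp [mul_comm]⟩)
  refine ⟨π z, lt_of_le_of_lt (limsup_le_of_le (isCoboundedUnder_le_of_le _ (x := 0)
    fun n => by positivity) (a := 4 * ε / 5) ?_) (by linarith)⟩
  filter_upwards [hz', eventually_ge_atTop N0, eventually_gt_atTop 0] with n a1 a2 a3
  have hn0 : (0 : ℝ) < n := by exact_mod_cast a3
  have a4 := hy n a2 0
  simp only [add_zero] at a4
  rw [div_lt_iff₀ hn0] at a1 a4
  have hsc : ∀ i x, π (f^[i] x) = g^[i] (π x) := fun i => Function.Semiconj.iterate_right hc i
  have b1 : ∀ i ∈ range n, dist (g^[i] (π z)) (y i) ≤ 2 * (ε / 5) +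
      L * dist (f^[i] z) (f^[i % N] (σ (y (N * (i / N))))) +
      C * ∑ t ∈ range n, if i ∈ Ioc t (t + N) then dist (g (y t)) (y (t + 1)) else 0 := by
    intro i hi
    have c1 := h1 (f^[i] z) (f^[i % N] (σ (y (N * (i / N)))))
    have c2 := h3 y (N * (i / N)) (i % N) (Nat.mod_lt i hN1).le
    rw [hsc, hsc, hσ] at c1
    rw [Nat.div_add_mod] at c2
    have c3 : ∑ t ∈ Ico (N * (i / N)) i, dist (g (y t)) (y (t + 1)) ≤
        ∑ t ∈ range n, if i ∈ Ioc t (t + N) then dist (g (y t)) (y (t + 1)) else 0 := by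
      rw [← sum_filter]
      refine sum_le_sum_of_subset_of_nonneg (fun t ht => ?_) fun _ _ _ => dist_nonneg
      have := Nat.div_add_mod i N
      have := Nat.mod_lt i hN1
      simp only [mem_Ico, mem_filter, mem_range, mem_Ioc] at *
      omega
    have c4 := mul_le_mul_of_nonneg_left c3 hC.le
    linarith [dist_triangle (g^[i] (π z)) (g^[i % N] (y (N * (i / N)))) (y i)]
  have b2 : ∑ i ∈ range n, ∑ t ∈ range n, (if i ∈ Ioc t (t + N) then dist (g (y t)) (y (t + 1))
      else 0) ≤ N * ∑ t ∈ range n, dist (g (y t)) (y (t + 1)) := by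
    rw [sum_comm, mul_sum]
    refine sum_le_sum fun t _ => ?_
    rw [sum_ite_mem, sum_const, nsmul_eq_mul]
    refine mul_le_mul_of_nonneg_right ?_ dist_nonneg
    exact_mod_cast (card_le_card inter_subset_right).trans (by simp)
  rw [div_le_iff₀ hn0]
  refine (sum_le_sum b1).trans ?_
  rw [sum_add_distrib, sum_add_distrib, ← mul_sum, ← mul_sum, ← mul_sum, sum_const, card_range,
    nsmul_eq_mul]
  have b3 := mul_le_mul_of_nonneg_left a1.le hL.le
  have b4 := mul_le_mul_of_nonneg_left a4.le (mul_pos hC hN0).le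
  have b5 := mul_le_mul_of_nonneg_left b2 hC.le
  have e1 : L * (ε / 5 / L * n) = ε / 5 * n := by field_simp
  have e2 : C * N * (ε / 5 / (C * N) * n) = ε / 5 * n := by field_simp
  nlinarith

end Pool.Agent.Results.MP_bdee7b_an.Factor
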